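import Pool.Agent.Y245.UC.Stm

/-! The Volterra equation along connected open sets; dependence on the germ. -/

set_option autoImplicit false

open Complex MeasureTheory Metric Set Filter Topology ComplexConjugate
open Pool.Agent.Y245.SC Pool.Agent.Y245.UC

namespace Pool.Agent.Y641.UC

theorem uconn : U_CONN := by
  intro hstep hK hS hP φ a b ha hφ
  refine ⟨fun V F u u' hV hVp hVb hF hu hu' hG => ?_, fun F F' u hFF hG => ?_⟩
  · have hloc : ∀ x ∈ V, ∀ᶠ y in 𝓝[V] x, (VG a φ b x F → VG a φ b y F) ∧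
        (VG a φ b y F → VG a φ b x F) := by
      intro x hx
      obtain ⟨ε, hε, hb⟩ := Metric.isOpen_iff.1 hV x hx
      have loc : ∀ v1 ∈ ball x ε, ∀ v2 ∈ ball x ε, VG a φ b v1 F → VG a φ b v2 F := by
        rintro v1 h1 v2 h2 ⟨H, hH⟩
        exact ⟨_, hstep hK hS hP φ F H a b v1 v2 (ball x ε) ha hφ isOpen_ball (convex_ball _ _)
          (hb.trans hVb) (hF.mono hb) h1 h2 hH⟩
      filter_upwards [mem_nhdsWithin_of_mem_nhds (ball_mem_nhds x hε)] with y hy
      exact ⟨loc x (mem_ball_self hε) y hy, loc y hy x (mem_ball_self hε)⟩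
    exact hVp.induction₂' (fun x y => VG a φ b x F → VG a φ b y F) hloc
      (fun x y z _ _ _ h1 h2 h3 => h2 (h1 h3)) hu hu' hG
  · obtain ⟨H, hH1, hH2⟩ := hG
    refine ⟨H, hH1, ?_⟩
    obtain ⟨ε, hε, hb⟩ := Metric.eventually_nhds_iff_ball.1 hFF
    filter_upwards [hH2, ball_mem_nhds u hε] with u0 h1 h2
    rw [← hb u0 h2, h1]
    congr 1
    unfold seg
    refine intervalIntegral.integral_congr fun t ht => ?_
    rw [uIcc_of_le zero_le_one] at ht
    have hm : u + t * (u0 - u) ∈ ball u ε := by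
      rw [mem_ball, dist_eq_norm, add_sub_cancel_left, norm_mul, Complex.norm_real,
        Real.norm_eq_abs, abs_of_nonneg ht.1]
      rw [mem_ball, dist_eq_norm] at h2
      have h3 : t * ‖u0 - u‖ ≤ 1 * ‖u0 - u‖ :=
        mul_le_mul_of_nonneg_right ht.2 (norm_nonneg _)
      linarith
    simp only [hb _ hm]

end Pool.Agent.Y641.UC
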